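import Pool.Agent.Run7.h504.Uni

/-!
# The equation `a p - b q = c`: constants from arbitrary families of nearly minimal energy, all small coefficients

For almost all constants `c` from an ARBITRARY family of integers whose additive energy of some fixed order `h` is nearly
minimal, the equation `a p - b q = c` has the number of prime solutions predicted by Hardy and Littlewood for ALL the
coefficients `a, b` up to a power of `log N` for which `a, b, c` are pairwise relatively prime and not all odd, at the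
same time. The family may be very thin: `N ^ (1 / h)` members are enough, for example.

Method: first moments of correlations with arbitrary coefficients over the family, for the function equal to
`(Λ - λ_z) (n / a)` at the multiples `n` of `a`, and its analogue for `b` with a cutoff; `λ_z` is the sieve model. One factor
after the other of the correlation `∑ Λ(q) Λ((b q + c) / a)` is replaced by the model. The main term is evaluated uniformly
in the coefficients (`Pool.Agent.Y820.LF`, `Pool.Agent.N699.ST`, starting files).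
-/

set_option autoImplicit false

namespace Pool.Agent.Results.MP_bf63dc_nt.FamiliesOfConstants

open Finset Filter

/-- `a, b, c` are positive, pairwise relatively prime and not all odd. -/
def Ok (a b c : ℕ) : Prop :=
  1 ≤ a ∧ 1 ≤ b ∧ 1 ≤ c ∧ Nat.Coprime a b ∧ Nat.Coprime a c ∧ Nat.Coprime b c ∧ 2 ∣ a * b * c

/-- The number of the prime solutions `(p, q)` of `a p - b q = c` with `q ≤ y`. -/
noncomputable def sol (a b c y : ℕ) : ℕ :=
  Set.ncard {x : ℕ × ℕ | x.1.Prime ∧ x.2.Prime ∧ (a : ℤ) * x.1 - b * x.2 = c ∧ x.2 ≤ y}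

/-- The sum of `Λ(p) Λ(q)` over the solutions of `a p - b q = c` in positive integers with `q ≤ y`. -/
noncomputable def weighted (a b c y : ℕ) : ℝ :=
  ∑ q ∈ Icc 1 y, if a ∣ b * q + c then
    ArithmeticFunction.vonMangoldt q * ArithmeticFunction.vonMangoldt ((b * q + c) / a) else 0

open Classical in
/-- The partial products of the singular series: the factor of a prime `p ≤ z` is `(1 - 1 / p) / (1 - 1 / p) ^ 2` if `p`
divides `a b c`, and `(1 - 2 / p) / (1 - 1 / p) ^ 2` otherwise. -/
noncomputable def sing (a b c z : ℕ) : ℝ :=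
  ∏ p ∈ (Icc 1 z).filter Nat.Prime, (1 - (if p ∣ a * b * c then 1 else 2) / (p : ℝ)) / (1 - 1 / (p : ℝ)) ^ 2

/-- The formula of Hardy and Littlewood for the prime solutions of `a p - b q = c` with `q ≤ a y`, where `log N` is the
approximate size of the logarithms of the primes: the singular series converges to some `S > 0`, the number of the
solutions weighted with the von Mangoldt function is `S y`, with an error of at most `y / log ^ U N`, and the number of
the prime solutions is `S y / log ^ 2 N`, with a relative error of at most `ε`. -/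
def Formula (ε : ℝ) (U N y a b c : ℕ) : Prop :=
  ∃ S : ℝ, 0 < S ∧ Tendsto (sing a b c) atTop (nhds S) ∧
    |weighted a b c (a * y) - S * y| ≤ y / Real.log N ^ U ∧
    |(sol a b c (a * y) : ℝ) - S * (y / Real.log N ^ 2)| ≤ ε * (S * (y / Real.log N ^ 2))

/-- The formula holds for `c` and ALL the coefficients `a, b` with `a b ≤ j ≤ log ^ A N` for which `a, b, c` are pairwise
relatively prime and not all odd, with `y = N / j` (so that `b q` is at most `N`). -/
def AllCoefficients (ε : ℝ) (A U N c : ℕ) : Prop :=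
  ∀ j a b : ℕ, (j : ℝ) ≤ Real.log N ^ A → a * b ≤ j → Ok a b c → Formula ε U N (N / j) a b c

/-- The additive energy of order `h` of the family `f 1, ..., f x`: the number of the solutions of
`f (v 1) + ... + f (v h) = f (w 1) + ... + f (w h)`. -/
def energy (h x : ℕ) (f : ℕ → ℕ) : ℕ :=
  (((Fintype.piFinset fun _ : Fin h => Icc 1 x) ×ˢ (Fintype.piFinset fun _ : Fin h => Icc 1 x)).filter
    fun q => ∑ i, f (q.1 i) = ∑ i, f (q.2 i)).card

/-- The number of the representations `t = f (v 1) + ... + f (v h)`, `1 ≤ v i ≤ x`. -/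
def reps (h x : ℕ) (f : ℕ → ℕ) (t : ℕ) : ℕ :=
  ((Fintype.piFinset fun _ : Fin h => Icc 1 x).filter fun v => ∑ i, f (v i) = t).card

open Classical in
/-- The number of the `m ≤ x` for which `AllCoefficients` fails for the constant `f m`. -/
noncomputable def exceptions (ε : ℝ) (A U N x : ℕ) (f : ℕ → ℕ) : ℕ :=
  ((Icc 1 x).filter fun m => ¬ AllCoefficients ε A U N (f m)).card

lemma energy_eq (h x : ℕ) (f : ℕ → ℕ) :
    Pool.Agent.H373R2.T7.energy h x (fun m => (f m : ℤ)) = energy h x f := by
  unfold energy Pool.Agent.H373R2.T7.energy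
  congr 1
  apply filter_congr
  intro q _
  change (∑ i, ((f (q.1 i) : ℕ) : ℤ) = ∑ i, ((f (q.2 i) : ℕ) : ℤ)) ↔ _
  constructor
  · intro h; exact_mod_cast h
  · intro h; exact_mod_cast h

lemma energy_le (h x J : ℕ) (f : ℕ → ℕ) (hJ : ∀ t, reps h x f t ≤ J) : energy h x f ≤ x ^ h * J := by
  unfold energy
  rw [card_filter, sum_product]
  calc ∑ v ∈ Fintype.piFinset fun _ : Fin h => Icc 1 x, ∑ w ∈ Fintype.piFinset fun _ : Fin h => Icc 1 x,
        (if ∑ i, f (v i) = ∑ i, f (w i) then 1 else 0) ≤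
      ∑ _v ∈ Fintype.piFinset fun _ : Fin h => Icc 1 x, J := by
        apply sum_le_sum
        intro v _
        rw [← card_filter]
        refine le_trans (le_of_eq ?_) (hJ (∑ i, f (v i)))
        unfold reps
        congr 1
        apply filter_congr
        intro w _
        exact eq_comm
    _ = x ^ h * J := by
        rw [sum_const, Fintype.card_piFinset, prod_const, card_univ, Fintype.card_fin, Nat.card_Icc,
          smul_eq_mul, Nat.add_sub_cancel]

lemma ok_of (a b c : ℕ) (h : Ok a b c) : Pool.Agent.Results.MP_bf63dc_nt.BoundedlyManyPowers.Ok a b c := by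
  obtain ⟨h1, h2, _, h4, h5, h6, h7⟩ := h
  exact ⟨h1, h2, h4, Nat.isCoprime_iff_coprime.2 h5, Nat.isCoprime_iff_coprime.2 h6, by exact_mod_cast h7⟩

lemma sing_of (a b c : ℕ) : Pool.Agent.Results.MP_bf63dc_nt.BoundedlyManyPowers.sing a b c = sing a b c := by
  funext z
  unfold Pool.Agent.Results.MP_bf63dc_nt.BoundedlyManyPowers.sing sing
  apply prod_congr rfl
  intro p _
  have e : (p : ℤ) ∣ (a : ℤ) * b * (c : ℤ) ↔ p ∣ a * b * c := by
    have : (a : ℤ) * b * (c : ℤ) = ((a * b * c : ℕ) : ℤ) := by push_cast; ring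
    rw [this]
    exact Int.natCast_dvd_natCast
  by_cases hc : p ∣ a * b * c
  · rw [if_pos hc, if_pos (e.2 hc)]
  · rw [if_neg hc, if_neg (fun h => hc (e.1 h))]

/-- the first solution -/
lemma first_sol (a b c : ℕ) (h : Ok a b c) : ∃ u v : ℕ, 1 ≤ v ∧ v ≤ a ∧ a * u = b * v + c := by
  obtain ⟨ha, hb, hc, hab, _⟩ := h
  -- the class of `-c / b` modulo `a`
  obtain ⟨k, hk⟩ : ∃ k : ℕ, b * k ≡ 1 [MOD a] := by
    rcases Nat.lt_or_ge 1 a with h1 | h1
    · obtain ⟨k, _, hk⟩ := Nat.exists_mul_mod_eq_one_of_coprime hab.symm h1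
      refine ⟨k, ?_⟩
      unfold Nat.ModEq
      rw [hk, Nat.mod_eq_of_lt h1]
    · have : a = 1 := by omega
      subst this
      exact ⟨0, Nat.modEq_one⟩
  -- a multiple of `a` which is larger than `c`
  obtain ⟨w, hw⟩ : ∃ w, w = k * ((a - 1) * c) := ⟨_, rfl⟩
  have hd : a ∣ b * w + c := by
    have h1 : b * w ≡ (a - 1) * c [MOD a] := by
      have h2 := Nat.ModEq.mul_right ((a - 1) * c) hk
      rw [one_mul] at h2
      have e : b * w = b * k * ((a - 1) * c) := by rw [hw]; ring
      rw [e]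
      exact h2
    have h3 : b * w + c ≡ (a - 1) * c + c [MOD a] := Nat.ModEq.add_right c h1
    have e : (a - 1) * c + c = a * c := by
      obtain ⟨a', rfl⟩ : ∃ a', a = a' + 1 := ⟨a - 1, by omega⟩
      rw [Nat.add_sub_cancel]
      ring
    rw [e] at h3
    exact (Nat.modEq_zero_iff_dvd.1 (h3.trans (Nat.modEq_zero_iff_dvd.2 (dvd_mul_right a c))))
  -- reduction to the interval
  rcases Nat.eq_zero_or_pos (w % a) with h0 | h0
  · have h1 : a ∣ w := Nat.dvd_of_mod_eq_zero h0
    have h2 : a ∣ c := (Nat.dvd_add_right (Dvd.dvd.mul_left h1 b)).1 hd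
    have h3 : a ∣ b * a + c := dvd_add (dvd_mul_left a b) h2
    obtain ⟨u, hu⟩ := h3
    exact ⟨u, a, ha, le_rfl, hu.symm⟩
  · have h1 : w % a < a := Nat.mod_lt _ ha
    have h2 : a ∣ b * (w % a) + c := by
      have h3 : b * (w % a) + c ≡ b * w + c [MOD a] := Nat.ModEq.add_right c (Nat.ModEq.mul_left b (Nat.mod_modEq w a))
      exact Nat.modEq_zero_iff_dvd.1 (h3.trans (Nat.modEq_zero_iff_dvd.2 hd))
    obtain ⟨u, hu⟩ := h2
    exact ⟨u, w % a, h0, h1.le, hu.symm⟩

lemma sol_of (a b c u v T : ℕ) (h : Ok a b c) (hv1 : 1 ≤ v) (hva : v ≤ a) (huv : a * u = b * v + c) :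
    (sol a b c (a * T) : ℝ) = Pool.Agent.Run7.h504.Eq.num a b u v T := by
  obtain ⟨ha, hb, hc, hab, _⟩ := h
  unfold sol Pool.Agent.Run7.h504.Eq.num
  have himg : {x : ℕ × ℕ | x.1.Prime ∧ x.2.Prime ∧ (a : ℤ) * x.1 - b * x.2 = c ∧ x.2 ≤ a * T} =
      (((range T).filter fun t => (v + a * t).Prime ∧ (u + b * t).Prime).image
        (fun t => (u + b * t, v + a * t)) : Finset (ℕ × ℕ)) := by
    ext x
    rw [Set.mem_ofPred_eq, mem_coe, mem_image]
    constructor
    · rintro ⟨h1, h2, h3, h4⟩
      have h5 : a * x.1 = b * x.2 + c := by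
        have : (a : ℤ) * x.1 = b * x.2 + c := by linarith
        exact_mod_cast this
      have h6 : b * x.2 + c ≡ b * v + c [MOD a] := by
        have e1 : b * x.2 + c ≡ 0 [MOD a] := Nat.modEq_zero_iff_dvd.2 ⟨x.1, h5.symm⟩
        have e2 : b * v + c ≡ 0 [MOD a] := Nat.modEq_zero_iff_dvd.2 ⟨u, huv.symm⟩
        exact e1.trans e2.symm
      have h7 : x.2 ≡ v [MOD a] := Nat.ModEq.cancel_left_of_coprime hab (Nat.ModEq.add_right_cancel' c h6)
      have h8 : v ≤ x.2 := by
        by_contra hcon
        have h9 : a ∣ v - x.2 := (Nat.modEq_iff_dvd' (by omega)).1 h7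
        have h10 := Nat.le_of_dvd (by omega) h9
        have h11 := h2.pos
        omega
      obtain ⟨t, ht⟩ := (Nat.modEq_iff_dvd' h8).1 h7.symm
      have h9 : x.2 = v + a * t := by omega
      have h10 : x.1 = u + b * t := by
        have : a * x.1 = a * (u + b * t) := by
          rw [h5, h9]
          have e : a * (u + b * t) = a * u + a * b * t := by ring
          rw [e, huv]
          ring
        exact Nat.eq_of_mul_eq_mul_left ha this
      refine ⟨t, mem_filter.2 ⟨?_, ?_⟩, ?_⟩
      · rw [mem_range]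
        by_contra hcon
        have : a * T ≤ a * t := Nat.mul_le_mul_left _ (by omega)
        omega
      · rw [← h9, ← h10]
        exact ⟨h2, h1⟩
      · ext
        · exact h10.symm
        · exact h9.symm
    · rintro ⟨t, ht, rfl⟩
      rw [mem_filter, mem_range] at ht
      refine ⟨ht.2.2, ht.2.1, ?_, ?_⟩
      · have h5 : a * (u + b * t) = b * (v + a * t) + c := by
          have e : a * (u + b * t) = a * u + a * b * t := by ring
          rw [e, huv]
          ring
        have h6 : (a : ℤ) * ((u + b * t : ℕ) : ℤ) = b * ((v + a * t : ℕ) : ℤ) + c := by exact_mod_cast h5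
        simp only
        linarith
      · have h5 : a * (t + 1) ≤ a * T := Nat.mul_le_mul_left _ ht.1
        have h6 : a * (t + 1) = a * t + a := by ring
        simp only
        omega
  rw [himg, Set.ncard_coe_finset, card_image_of_injective]
  intro t t' htt
  simp only [Prod.mk.injEq] at htt
  have h1 : a * t = a * t' := by omega
  exact Nat.eq_of_mul_eq_mul_left ha h1

lemma all_of (ε : ℝ) (A U N c : ℕ) (h : Pool.Agent.Run7.h504.Eq.Good ε A U N c) : AllCoefficients ε A U N c := by
  intro j a b hj hab hok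
  obtain ⟨u, v, hv1, hva, huv⟩ := first_sol a b c hok
  have hok2 := ok_of a b c hok
  have hcz : (a : ℤ) * u - b * v = (c : ℤ) := by
    have : (a : ℤ) * u = b * v + c := by exact_mod_cast huv
    linarith
  have hadm := Pool.Agent.Results.MP_bf63dc_nt.BoundedlyManyPowers.adm a b c hok2 u v hcz
  obtain ⟨S, hS0, hS, h1, h2⟩ := h j a b u v hj hok.1 hok.2.1 hab hok.2.2.1 hok.2.2.2.1 hv1 hva huv hadm
  rw [Pool.Agent.Results.MP_bf63dc_nt.BoundedlyManyPowers.sing_eq a b c hok2 u v hcz, sing_of] at hS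
  refine ⟨S, hS0, hS, h1, ?_⟩
  rw [sol_of a b c u v (N / j) hok hv1 hva huv]
  exact h2

theorem first (h A B C U : ℕ) (ε : ℝ) (hε : 0 < ε) :
    ∃ N₀ : ℕ, ∀ N : ℕ, N₀ ≤ N → ∀ (x : ℕ) (f : ℕ → ℕ), (∀ m ∈ Icc 1 x, f m ≤ B * N) →
      (energy h x f : ℝ) * N ≤ Real.log N ^ C * (x : ℝ) ^ (2 * h) →
      (exceptions ε A U N x f : ℝ) ≤ x / Real.log N ^ U := by
  classical
  obtain ⟨N₀, h0⟩ := Pool.Agent.Run7.h504.Eq.core h B C U A ε hε
  refine ⟨N₀, fun N hN x f hf hE => ?_⟩
  have h1 := h0 N hN x f hf (by rw [energy_eq]; exact hE)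
  refine le_trans ?_ h1
  unfold exceptions
  have hsub : (Icc 1 x).filter (fun m => ¬ AllCoefficients ε A U N (f m)) ⊆
      (Icc 1 x).filter (fun m => ¬ Pool.Agent.Run7.h504.Eq.Good ε A U N (f m)) := by
    intro m hm
    rw [mem_filter] at hm ⊢
    exact ⟨hm.1, fun hG => hm.2 (all_of ε A U N (f m) hG)⟩
  exact_mod_cast card_le_card hsub

/-- Let `h`, `A`, `B`, `C`, `U` and `ε > 0` be fixed, and let `N` be large.

(1) Let `f 1, ..., f x` be an ARBITRARY family of natural numbers in `[0, B N]`, whose additive energy of order `h` is at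
most `log ^ C N` times `x ^ (2 h) / N`. Then all but at most `x / log ^ U N` of its members `c` have the following property:
for all `j ≤ log ^ A N` and ALL `a, b ≥ 1` with `a b ≤ j` for which `a, b, c` are pairwise relatively prime and not all
odd (and `c ≠ 0`), the formula of Hardy and Littlewood holds for the number of the prime solutions `(p, q)` of
`a p - b q = c` with `q ≤ a ⌊N / j⌋`.

(2) In particular this holds if no integer has more than `J` representations as a sum of `h` members of the family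
(`B_h[J]`-families), and `x ^ h ≥ N / log ^ C N`. -/
theorem result (h A B C U : ℕ) (ε : ℝ) (hε : 0 < ε) :
    (∃ N₀ : ℕ, ∀ N : ℕ, N₀ ≤ N → ∀ (x : ℕ) (f : ℕ → ℕ), (∀ m ∈ Icc 1 x, f m ≤ B * N) →
      (energy h x f : ℝ) * N ≤ Real.log N ^ C * (x : ℝ) ^ (2 * h) →
      (exceptions ε A U N x f : ℝ) ≤ x / Real.log N ^ U) ∧
    (∀ J : ℕ, ∃ N₀ : ℕ, ∀ N : ℕ, N₀ ≤ N → ∀ (x : ℕ) (f : ℕ → ℕ), (∀ m ∈ Icc 1 x, f m ≤ B * N) →
      (∀ t, reps h x f t ≤ J) → (N : ℝ) ≤ Real.log N ^ C * (x : ℝ) ^ h →
      (exceptions ε A U N x f : ℝ) ≤ x / Real.log N ^ U) := by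
  refine ⟨first h A B C U ε hε, fun J => ?_⟩
  obtain ⟨N₀, h0⟩ := first h A B (C + 1) U ε hε
  obtain ⟨N₁, h1⟩ := Pool.Agent.H373R2.T7.ev_L' (J + 1)
  refine ⟨N₀ + N₁ + 1, fun N hN x f hf hJ hx => ?_⟩
  apply h0 N (by omega) x f hf
  have hL := h1 N (by omega)
  have hJ0 : (0 : ℝ) ≤ J := Nat.cast_nonneg _
  have hN0 : (0 : ℝ) ≤ N := Nat.cast_nonneg _
  have hx0 : (0 : ℝ) ≤ (x : ℝ) ^ h := by positivity
  have h2 : (energy h x f : ℝ) ≤ (x : ℝ) ^ h * J := by exact_mod_cast energy_le h x J f hJ
  have hL0 : 0 ≤ Real.log N := by linarith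
  calc (energy h x f : ℝ) * N ≤ ((x : ℝ) ^ h * J) * (Real.log N ^ C * (x : ℝ) ^ h) :=
        mul_le_mul h2 hx hN0 (mul_nonneg hx0 hJ0)
    _ = J * (Real.log N ^ C * (x : ℝ) ^ (2 * h)) := by ring
    _ ≤ Real.log N * (Real.log N ^ C * (x : ℝ) ^ (2 * h)) := by
        apply mul_le_mul_of_nonneg_right (by linarith) (by positivity)
    _ = Real.log N ^ (C + 1) * (x : ℝ) ^ (2 * h) := by ring

end Pool.Agent.Results.MP_bf63dc_nt.FamiliesOfConstants
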