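import Pool.Agent.Run7.h582.FD.OneN
import Pool.Agent.Run7.h504.Uni

/-!
# The equation `a p - b q = c` for the constants near `lam n * x + c n`, for almost every `x` of all measures with Fourier decay

Let `N n ≥ exp (n ^ η)`, and let `lam n`, `c n` be real numbers with `N n / log ^ T (N n) ≤ lam n ≤ B N n` and
`0 ≤ c n ≤ B N n`.  A real number `x > 0` is called generic if for all `A`, `U`, `W` and `ε > 0` and for all large `n` the
formula of Hardy and Littlewood holds for the prime solutions of the equation `a p - b q = k` for ALL the integers `k` at a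
distance of at most `log ^ W (N n)` from `lam n * x + c n` and for ALL the coefficients `a, b` with `a b ≤ log ^ A (N n)` for
which `a, b, k` are pairwise relatively prime and not all odd, at the same time.

Almost every `x > 0` is generic with respect to EVERY finite Borel measure on the line whose Fourier transform belongs to
some `L ^ p`, `p < ∞`, for example to every measure with a Fourier transform `O (|ξ| ^ (-δ))`: the set of the real numbers
`x > 0` which are not generic has Fourier dimension zero.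

The proof: the theorem of helper504 for families of nearly minimal additive energy (`Pool.Agent.Run7.h504`, the hand-in
FamiliesOfConstants; the definitions and the elementary lemmas on the equation below are copied from there) is transferred
from families to arbitrary laws of nearly minimal energy (`Pool.Agent.Run7.h582.FD`), the energy of a measure is bounded by
its Fourier transform; Borel-Cantelli.
-/

set_option autoImplicit false

namespace Pool.Agent.Results.MP_bf63dc_nt.FourierDecayConstants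

open Finset Filter MeasureTheory

/-- `a, b, c` are positive, pairwise relatively prime and not all odd. -/
def Ok (a b c : ℕ) : Prop :=
  1 ≤ a ∧ 1 ≤ b ∧ 1 ≤ c ∧ Nat.Coprime a b ∧ Nat.Coprime a c ∧ Nat.Coprime b c ∧ 2 ∣ a * b * c

/-- The number of the prime solutions `(p, q)` of `a p - b q = c` with `q ≤ y`. -/
noncomputable def sol (a b c y : ℕ) : ℕ :=
  Set.ncard {x : ℕ × ℕ | x.1.Prime ∧ x.2.Prime ∧ (a : ℤ) * x.1 - b * x.2 = c ∧ x.2 ≤ y}

/-- The sum of `Λ(p) Λ(q)` over the solutions of `a p - b q = c` in positive integers with `q ≤ y`. -/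
noncomputable def weighted (a b c y : ℕ) : ℝ :=
  ∑ q ∈ Icc 1 y, if a ∣ b * q + c then
    ArithmeticFunction.vonMangoldt q * ArithmeticFunction.vonMangoldt ((b * q + c) / a) else 0

open Classical in
/-- The partial products of the singular series: the factor of a prime `p ≤ z` is `(1 - 1 / p) / (1 - 1 / p) ^ 2` if `p`
divides `a b c`, and `(1 - 2 / p) / (1 - 1 / p) ^ 2` otherwise. -/
noncomputable def sing (a b c z : ℕ) : ℝ :=
  ∏ p ∈ (Icc 1 z).filter Nat.Prime, (1 - (if p ∣ a * b * c then 1 else 2) / (p : ℝ)) / (1 - 1 / (p : ℝ)) ^ 2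

/-- The formula of Hardy and Littlewood for the prime solutions of `a p - b q = c` with `q ≤ a y`, where `log N` is the
approximate size of the logarithms of the primes: the singular series converges to some `S > 0`, the number of the
solutions weighted with the von Mangoldt function is `S y`, with an error of at most `y / log ^ U N`, and the number of
the prime solutions is `S y / log ^ 2 N`, with a relative error of at most `ε`. -/
def Formula (ε : ℝ) (U N y a b c : ℕ) : Prop :=
  ∃ S : ℝ, 0 < S ∧ Tendsto (sing a b c) atTop (nhds S) ∧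
    |weighted a b c (a * y) - S * y| ≤ y / Real.log N ^ U ∧
    |(sol a b c (a * y) : ℝ) - S * (y / Real.log N ^ 2)| ≤ ε * (S * (y / Real.log N ^ 2))

/-- The formula holds for `c` and ALL the coefficients `a, b` with `a b ≤ j ≤ log ^ A N` for which `a, b, c` are pairwise
relatively prime and not all odd, with `y = N / j` (so that `b q` is at most `N`). -/
def AllCoefficients (ε : ℝ) (A U N c : ℕ) : Prop :=
  ∀ j a b : ℕ, (j : ℝ) ≤ Real.log N ^ A → a * b ≤ j → Ok a b c → Formula ε U N (N / j) a b c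

lemma ok_of (a b c : ℕ) (h : Ok a b c) : Pool.Agent.Results.MP_bf63dc_nt.BoundedlyManyPowers.Ok a b c := by
  obtain ⟨h1, h2, _, h4, h5, h6, h7⟩ := h
  exact ⟨h1, h2, h4, Nat.isCoprime_iff_coprime.2 h5, Nat.isCoprime_iff_coprime.2 h6, by exact_mod_cast h7⟩

lemma sing_of (a b c : ℕ) : Pool.Agent.Results.MP_bf63dc_nt.BoundedlyManyPowers.sing a b c = sing a b c := by
  funext z
  unfold Pool.Agent.Results.MP_bf63dc_nt.BoundedlyManyPowers.sing sing
  apply prod_congr rfl
  intro p _
  have e : (p : ℤ) ∣ (a : ℤ) * b * (c : ℤ) ↔ p ∣ a * b * c := by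
    have : (a : ℤ) * b * (c : ℤ) = ((a * b * c : ℕ) : ℤ) := by push_cast; ring
    rw [this]
    exact Int.natCast_dvd_natCast
  by_cases hc : p ∣ a * b * c
  · rw [if_pos hc, if_pos (e.2 hc)]
  · rw [if_neg hc, if_neg (fun h => hc (e.1 h))]

/-- the first solution -/
lemma first_sol (a b c : ℕ) (h : Ok a b c) : ∃ u v : ℕ, 1 ≤ v ∧ v ≤ a ∧ a * u = b * v + c := by
  obtain ⟨ha, hb, hc, hab, _⟩ := h
  -- the class of `-c / b` modulo `a`
  obtain ⟨k, hk⟩ : ∃ k : ℕ, b * k ≡ 1 [MOD a] := by
    rcases Nat.lt_or_ge 1 a with h1 | h1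
    · obtain ⟨k, _, hk⟩ := Nat.exists_mul_mod_eq_one_of_coprime hab.symm h1
      refine ⟨k, ?_⟩
      unfold Nat.ModEq
      rw [hk, Nat.mod_eq_of_lt h1]
    · have : a = 1 := by omega
      subst this
      exact ⟨0, Nat.modEq_one⟩
  -- a multiple of `a` which is larger than `c`
  obtain ⟨w, hw⟩ : ∃ w, w = k * ((a - 1) * c) := ⟨_, rfl⟩
  have hd : a ∣ b * w + c := by
    have h1 : b * w ≡ (a - 1) * c [MOD a] := by
      have h2 := Nat.ModEq.mul_right ((a - 1) * c) hk
      rw [one_mul] at h2
      have e : b * w = b * k * ((a - 1) * c) := by rw [hw]; ring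
      rw [e]
      exact h2
    have h3 : b * w + c ≡ (a - 1) * c + c [MOD a] := Nat.ModEq.add_right c h1
    have e : (a - 1) * c + c = a * c := by
      obtain ⟨a', rfl⟩ : ∃ a', a = a' + 1 := ⟨a - 1, by omega⟩
      rw [Nat.add_sub_cancel]
      ring
    rw [e] at h3
    exact (Nat.modEq_zero_iff_dvd.1 (h3.trans (Nat.modEq_zero_iff_dvd.2 (dvd_mul_right a c))))
  -- reduction to the interval
  rcases Nat.eq_zero_or_pos (w % a) with h0 | h0
  · have h1 : a ∣ w := Nat.dvd_of_mod_eq_zero h0
    have h2 : a ∣ c := (Nat.dvd_add_right (Dvd.dvd.mul_left h1 b)).1 hd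
    have h3 : a ∣ b * a + c := dvd_add (dvd_mul_left a b) h2
    obtain ⟨u, hu⟩ := h3
    exact ⟨u, a, ha, le_rfl, hu.symm⟩
  · have h1 : w % a < a := Nat.mod_lt _ ha
    have h2 : a ∣ b * (w % a) + c := by
      have h3 : b * (w % a) + c ≡ b * w + c [MOD a] := Nat.ModEq.add_right c (Nat.ModEq.mul_left b (Nat.mod_modEq w a))
      exact Nat.modEq_zero_iff_dvd.1 (h3.trans (Nat.modEq_zero_iff_dvd.2 hd))
    obtain ⟨u, hu⟩ := h2
    exact ⟨u, w % a, h0, h1.le, hu.symm⟩

lemma sol_of (a b c u v T : ℕ) (h : Ok a b c) (hv1 : 1 ≤ v) (hva : v ≤ a) (huv : a * u = b * v + c) :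
    (sol a b c (a * T) : ℝ) = Pool.Agent.Run7.h504.Eq.num a b u v T := by
  obtain ⟨ha, hb, hc, hab, _⟩ := h
  unfold sol Pool.Agent.Run7.h504.Eq.num
  have himg : {x : ℕ × ℕ | x.1.Prime ∧ x.2.Prime ∧ (a : ℤ) * x.1 - b * x.2 = c ∧ x.2 ≤ a * T} =
      (((range T).filter fun t => (v + a * t).Prime ∧ (u + b * t).Prime).image
        (fun t => (u + b * t, v + a * t)) : Finset (ℕ × ℕ)) := by
    ext x
    rw [Set.mem_ofPred_eq, mem_coe, mem_image]
    constructor
    · rintro ⟨h1, h2, h3, h4⟩
      have h5 : a * x.1 = b * x.2 + c := by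
        have : (a : ℤ) * x.1 = b * x.2 + c := by linarith
        exact_mod_cast this
      have h6 : b * x.2 + c ≡ b * v + c [MOD a] := by
        have e1 : b * x.2 + c ≡ 0 [MOD a] := Nat.modEq_zero_iff_dvd.2 ⟨x.1, h5.symm⟩
        have e2 : b * v + c ≡ 0 [MOD a] := Nat.modEq_zero_iff_dvd.2 ⟨u, huv.symm⟩
        exact e1.trans e2.symm
      have h7 : x.2 ≡ v [MOD a] := Nat.ModEq.cancel_left_of_coprime hab (Nat.ModEq.add_right_cancel' c h6)
      have h8 : v ≤ x.2 := by
        by_contra hcon
        have h9 : a ∣ v - x.2 := (Nat.modEq_iff_dvd' (by omega)).1 h7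
        have h10 := Nat.le_of_dvd (by omega) h9
        have h11 := h2.pos
        omega
      obtain ⟨t, ht⟩ := (Nat.modEq_iff_dvd' h8).1 h7.symm
      have h9 : x.2 = v + a * t := by omega
      have h10 : x.1 = u + b * t := by
        have : a * x.1 = a * (u + b * t) := by
          rw [h5, h9]
          have e : a * (u + b * t) = a * u + a * b * t := by ring
          rw [e, huv]
          ring
        exact Nat.eq_of_mul_eq_mul_left ha this
      refine ⟨t, mem_filter.2 ⟨?_, ?_⟩, ?_⟩
      · rw [mem_range]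
        by_contra hcon
        have : a * T ≤ a * t := Nat.mul_le_mul_left _ (by omega)
        omega
      · rw [← h9, ← h10]
        exact ⟨h2, h1⟩
      · ext
        · exact h10.symm
        · exact h9.symm
    · rintro ⟨t, ht, rfl⟩
      rw [mem_filter, mem_range] at ht
      refine ⟨ht.2.2, ht.2.1, ?_, ?_⟩
      · have h5 : a * (u + b * t) = b * (v + a * t) + c := by
          have e : a * (u + b * t) = a * u + a * b * t := by ring
          rw [e, huv]
          ring
        have h6 : (a : ℤ) * ((u + b * t : ℕ) : ℤ) = b * ((v + a * t : ℕ) : ℤ) + c := by exact_mod_cast h5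
        simp only
        linarith
      · have h5 : a * (t + 1) ≤ a * T := Nat.mul_le_mul_left _ ht.1
        have h6 : a * (t + 1) = a * t + a := by ring
        simp only
        omega
  rw [himg, Set.ncard_coe_finset, card_image_of_injective]
  intro t t' htt
  simp only [Prod.mk.injEq] at htt
  have h1 : a * t = a * t' := by omega
  exact Nat.eq_of_mul_eq_mul_left ha h1

lemma all_of (ε : ℝ) (A U N c : ℕ) (h : Pool.Agent.Run7.h504.Eq.Good ε A U N c) : AllCoefficients ε A U N c := by
  intro j a b hj hab hok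
  obtain ⟨u, v, hv1, hva, huv⟩ := first_sol a b c hok
  have hok2 := ok_of a b c hok
  have hcz : (a : ℤ) * u - b * v = (c : ℤ) := by
    have : (a : ℤ) * u = b * v + c := by exact_mod_cast huv
    linarith
  have hadm := Pool.Agent.Results.MP_bf63dc_nt.BoundedlyManyPowers.adm a b c hok2 u v hcz
  obtain ⟨S, hS0, hS, h1, h2⟩ := h j a b u v hj hok.1 hok.2.1 hab hok.2.2.1 hok.2.2.2.1 hv1 hva huv hadm
  rw [Pool.Agent.Results.MP_bf63dc_nt.BoundedlyManyPowers.sing_eq a b c hok2 u v hcz, sing_of] at hS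
  refine ⟨S, hS0, hS, h1, ?_⟩
  rw [sol_of a b c u v (N / j) hok hv1 hva huv]
  exact h2

lemma all_mono {ε ε' : ℝ} (hε : ε ≤ ε') {A U U' N c : ℕ} (hU : U ≤ U') (hN : 3 ≤ N)
    (h : AllCoefficients ε A U' N c) : AllCoefficients ε' A U N c := by
  intro j a b hj hab hok
  obtain ⟨S, h1, h2, h3, h4⟩ := h j a b hj hab hok
  have hL : 1 ≤ Real.log N := by
    rw [Real.le_log_iff_exp_le (by exact_mod_cast (by omega : 0 < N))]
    have : (3 : ℝ) ≤ N := by exact_mod_cast hN
    linarith [Real.exp_one_lt_d9]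
  refine ⟨S, h1, h2, h3.trans ?_, h4.trans ?_⟩
  · exact div_le_div_of_nonneg_left (Nat.cast_nonneg _) (by positivity) (pow_le_pow_right₀ hL hU)
  · exact mul_le_mul_of_nonneg_right hε (by positivity)

lemma thin (h A U : ℕ) (ε : ℝ) (hε : 0 < ε) :
    Pool.Agent.Run7.h582.FD.Thin h (fun N c => AllCoefficients ε A U N c) := by
  classical
  intro B C U'
  obtain ⟨N₀, h0⟩ := Pool.Agent.Run7.h504.Eq.core h B C (U + U') A ε hε
  refine ⟨N₀ + 3, fun N hN x f hf hE => ?_⟩
  refine le_trans ?_ ((h0 N (by omega) x f hf hE).trans ?_)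
  · have hsub : (Icc 1 x).filter (fun m => ¬ AllCoefficients ε A U N (f m)) ⊆
        (Icc 1 x).filter (fun m => ¬ Pool.Agent.Run7.h504.Eq.Good ε A (U + U') N (f m)) := by
      intro m hm
      rw [mem_filter] at hm ⊢
      exact ⟨hm.1, fun hG => hm.2 (all_mono le_rfl (by omega) (by omega) (all_of ε A (U + U') N (f m) hG))⟩
    exact_mod_cast card_le_card hsub
  · have hL : 1 ≤ Real.log N := by
      rw [Real.le_log_iff_exp_le (by exact_mod_cast (by omega : 0 < N))]
      have : (3 : ℝ) ≤ N := by exact_mod_cast (by omega : 3 ≤ N)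
      linarith [Real.exp_one_lt_d9]
    exact div_le_div_of_nonneg_left (Nat.cast_nonneg _) (by positivity) (pow_le_pow_right₀ hL (by omega))

/-- `N n ≥ exp (n ^ η)`, `N n / log ^ T (N n) ≤ lam n ≤ B N n` and `0 ≤ c n ≤ B N n` for large `n`. -/
def Scales (η : ℝ) (B T : ℕ) (N : ℕ → ℕ) (lam c : ℕ → ℝ) : Prop :=
  ∀ᶠ n : ℕ in atTop, Real.exp ((n : ℝ) ^ η) ≤ N n ∧ 0 ≤ c n ∧ c n ≤ B * N n ∧ lam n ≤ B * N n ∧
    (N n : ℝ) ≤ lam n * Real.log (N n) ^ T

/-- For all `A`, `U`, `W`, `ε > 0` and all large `n`, the formula holds for all the constants `k ≥ 0` at a distance of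
at most `log ^ W (N n)` from `lam n * x + c n`, and for all small coefficients. -/
def Generic (N : ℕ → ℕ) (lam c : ℕ → ℝ) (x : ℝ) : Prop :=
  ∀ A U W : ℕ, ∀ ε : ℝ, 0 < ε → ∀ᶠ n : ℕ in atTop, ∀ k : ℕ,
    |(k : ℝ) - (lam n * x + c n)| ≤ Real.log (N n) ^ W → AllCoefficients ε A U (N n) k

/-- `μ` is a finite Borel measure on the line whose Fourier transform `ξ ↦ ∫ exp (i ξ t) dμ (t)` has an integrable power. -/
def FourierDecay (μ : Measure ℝ) : Prop :=
  IsFiniteMeasure μ ∧ ∃ p : ℕ, Integrable (fun ξ : ℝ => ‖∫ t : ℝ, Complex.exp (((ξ * t : ℝ) : ℂ) * Complex.I) ∂μ‖ ^ p)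

/-- Let `η > 0`, `B`, `T` and sequences `N`, `lam`, `c` with `Scales η B T N lam c` be given, and let `μ` be a finite Borel
measure on the line whose Fourier transform has an integrable power. Then almost every `x > 0` is generic, with respect
to `μ`. -/
theorem result (η : ℝ) (hη : 0 < η) (B T : ℕ) (N : ℕ → ℕ) (lam c : ℕ → ℝ)
    (hS : Scales η B T N lam c) (μ : Measure ℝ) (hμ : FourierDecay μ) :
    ∀ᵐ x ∂μ, 0 < x → Generic N lam c x := by
  have hfin : IsFiniteMeasure μ := hμ.1
  have e : ∀ ξ : ℝ, ∫ t : ℝ, Complex.exp (((ξ * t : ℝ) : ℂ) * Complex.I) ∂μ = charFun μ ξ := by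
    intro ξ
    rw [charFun_apply_real]
    push_cast
    rfl
  have hI : ∃ p : ℕ, Integrable (fun ξ => ‖charFun μ ξ‖ ^ p) := by
    obtain ⟨p, hp⟩ := hμ.2
    simp only [e] at hp
    exact ⟨p, hp⟩
  have key : ∀ A U W k : ℕ, ∀ᵐ x ∂μ, 0 < x → ∀ᶠ n : ℕ in atTop, ∀ a : ℕ,
      |(a : ℝ) - (lam n * x + c n)| ≤ Real.log (N n) ^ W → AllCoefficients (1 / ((k : ℝ) + 1)) A U (N n) a :=
    fun A U W k => Pool.Agent.Run7.h582.FD.thin_ae (fun N c => AllCoefficients (1 / ((k : ℝ) + 1)) A U N c)
      (fun h _ => thin h A U _ (by positivity)) μ hI N lam c η hη (hS.mono fun n hn => hn.1) B T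
      (hS.mono fun n hn => hn.2) W
  simp only [← ae_all_iff] at key
  have hN3 : ∀ᶠ n : ℕ in atTop, 3 ≤ N n := by
    have h1 : Tendsto (fun n : ℕ => Real.exp ((n : ℝ) ^ η)) atTop atTop :=
      Real.tendsto_exp_atTop.comp ((tendsto_rpow_atTop hη).comp tendsto_natCast_atTop_atTop)
    filter_upwards [hS, h1.eventually_ge_atTop 3] with n h2 h3
    exact_mod_cast h3.trans h2.1
  filter_upwards [key] with x hx hpos A U W ε hε
  obtain ⟨k, hk⟩ := exists_nat_one_div_lt hε
  filter_upwards [hx A U W k hpos, hN3] with n hn h3 a ha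
  exact all_mono hk.le le_rfl h3 (hn a ha)

end Pool.Agent.Results.MP_bf63dc_nt.FourierDecayConstants
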