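import Pool.Agent.Run7.h166.GS.Rat

/-!
# All affine maps with slopes in a group of index at most three in one sequence whose steps are solvable

(1) There is a subgroup `H` of index at most three in the multiplicative group of the rationals,
containing `-1`, such that ALL affine maps `x ↦ u x + v` with `u > 0`, `u ∈ H`, and `v` rational can be
arranged in ONE sequence `f 0, f 1, …`, each map exactly once, such that for every `k` any `k` successive maps
`f i, …, f (i + k - 1)`, `i` large, are simultaneously prime: for `N ^ (1 - η)` primes `p ≤ N` the numbers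
`f (i + j) ((f i)⁻¹ p)`, `j < k`, are all prime, for all `η > 0` and arbitrarily large `N`. In particular
every step from some place on is an equation `a p - b q = c` with infinitely many prime solutions.

(2) Let `c ≠ 0` be an integer. In the group of the positive rational numbers with numerator and
denominator prime to `c` there is a subgroup `H` of index at most three all of whose elements can be arranged
in one sequence `u 0, u 1, …`, each exactly once, such that for every `k` and all large `i` there are
`N ^ (1 - η)` primes `p ≤ N` which belong to prime numbers `q_0 = p, q_1, …, q_(k-1)` such that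
`q_0 - c, …, q_(k-1) - c` are proportional to `u i, …, u (i + k - 1)`. For `c = ± 1` the question predicts
`H` = all positive rationals.

Proof. `U` is a limit of the maps `b x + 1`, `b` more and more divisible; a limit of `b`, `b` prime to `c`, in
(2). No finite number of translates of `U` has a local obstruction. Call two translates of `U` connected on
the level `k` if `k` generic elements of the one and `k` generic elements of the other are simultaneously
prime. By the coloured Maynard-Tao theorem above one quarter of the starting files (`TH899/UG`, used through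
`mtE`) two of any four translates are connected. The translations of `U` which are connected with `U` generate
a subgroup `T` of index at most three, the same one for all large `k`; from each window one can walk along
connected translates to any translate in `T`, and every element of `T` is absorbed by such a translate. So
one walk visits all of `T`.
-/

open Filter

namespace Pool.Agent.Results.MP_bf63dc_nt.OneSequenceOfEquations

open Classical in
/-- for every `η > 0` and arbitrarily large `N` at least `N ^ (1 - η)` numbers `p ≤ N` satisfy `P` -/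
def Frequent (P : ℕ → Prop) : Prop :=
  ∀ η : ℝ, 0 < η → ∃ᶠ N : ℕ in atTop,
    (N : ℝ) ^ (1 - η) ≤ (((Finset.Icc 1 N).filter (fun p : ℕ => P p)).card : ℝ)

/-- the positive rational numbers `a / b` with positive integers `a`, `b` prime to `c` -/
abbrev PrimeTo (c : ℤ) : Subgroup ℚˣ := Pool.Agent.Run7.h166.GS.PC c

/-- the membership in `PrimeTo c`, written out -/
theorem mem_primeTo (c : ℤ) (u : ℚˣ) : u ∈ PrimeTo c ↔ ∃ a b : ℕ, 0 < a ∧ 0 < b ∧
    IsCoprime (a : ℤ) c ∧ IsCoprime (b : ℤ) c ∧ (u : ℚ) = a / b := Iff.rfl

/-- **One sequence of solvable equations.** -/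
theorem result :
    (∃ H : Subgroup ℚˣ, -1 ∈ H ∧ 1 ≤ H.index ∧ H.index ≤ 3 ∧ ∃ f : ℕ → ℚ × ℚ,
      Function.Injective f ∧ Set.range f = {w | 0 < w.1 ∧ ∃ u ∈ H, ((u : ℚˣ) : ℚ) = w.1} ∧
      ∀ k : ℕ, 1 ≤ k → ∃ i₀, ∀ i, i₀ ≤ i → Frequent (fun p => p.Prime ∧ ∀ j < k, ∃ q : ℕ, q.Prime ∧
        (q : ℚ) = (f (i + j)).1 * (((p : ℚ) - (f i).2) / (f i).1) + (f (i + j)).2)) ∧
    ∀ c : ℤ, c ≠ 0 → ∃ H : Subgroup ℚˣ, H ≤ PrimeTo c ∧ 1 ≤ H.relIndex (PrimeTo c) ∧
      H.relIndex (PrimeTo c) ≤ 3 ∧ ∃ u : ℕ → ℚˣ, Function.Injective u ∧ Set.range u = H ∧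
      ∀ k : ℕ, 1 ≤ k → ∃ i₀, ∀ i, i₀ ≤ i → Frequent (fun p => p.Prime ∧ ∀ j < k, ∃ q : ℕ, q.Prime ∧
        ((q : ℚ) - c) * (u i : ℚ) = ((p : ℚ) - c) * (u (i + j) : ℚ)) := by
  refine ⟨?_, fun c hc => ?_⟩
  · obtain ⟨H, h1, h2, h3, f, h4, h5, h6⟩ := Pool.Agent.Run7.h166.GS.part1
    refine ⟨H, h1, h2, h3, f, h4, h5, fun k hk => ?_⟩
    obtain ⟨i₀, h7⟩ := h6 k hk
    refine ⟨i₀, fun i hi η hη => (h7 i hi η hη).mono fun N hN => hN.trans (le_of_eq ?_)⟩
    congr!
  · obtain ⟨H, h1, h2, h3, u, h4, h5, h6⟩ := Pool.Agent.Run7.h166.GS.part2 hc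
    refine ⟨H, h1, h2, h3, u, h4, h5, fun k hk => ?_⟩
    obtain ⟨i₀, h7⟩ := h6 k hk
    refine ⟨i₀, fun i hi η hη => (h7 i hi η hη).mono fun N hN => hN.trans (le_of_eq ?_)⟩
    congr!

end Pool.Agent.Results.MP_bf63dc_nt.OneSequenceOfEquations
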