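import Pool.Agent.Run7.h673.SP.Lin
import Pool.Agent.Run7.h673.SP.Vec

/-!
# The equation `a p - b q = c`: all the integers `c` near values of functions of superpolynomial growth, all small coefficients

For almost all values of functions such as `exp (γ (log n) ^ β)`, `1 < β < 3 / 2`, the equation `a p - b q = c` has the number
of prime solutions predicted by Hardy and Littlewood for ALL the integers `c` near the value (positive or negative) and ALL
the coefficients `a, b` up to a power of `log N` for which `a, b, c` are pairwise relatively prime and not all odd.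
These sequences have fewer than `N ^ η` members up to `N`, for every `η > 0`, so that no additive energy of a fixed order is
nearly minimal.

Method: the characteristic function of the integer part of `exp (φ (log n))`, for `n` in intervals `(y, x]` of a length of
at most `x / log x`, is small at all frequencies which are not close to integers (Vinogradov's method of bilinear
exponential sums with the mean value theorem in the form of a starting file; files `Pool.Agent.Run7.h673.SP`), so that only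
few frequencies matter in the second moment of the correlations of the dilated functions `Λ - λ_z` with arbitrary bounded
functions (`Few.lean`, `Lin.lean`). The decomposition of the equation and the evaluation of the main term for all
coefficients are from `Pool.Agent.Run7.h504` (`Dil`, `Pair`, `Eq`, `Uni`) and the starting files used there.
-/

set_option autoImplicit false

namespace Pool.Agent.Results.MP_bf63dc_nt.SuperpolynomialRightSides

open Finset Filter

/-- The conditions on `φ` for the growth of `f t = exp (φ (log t))`: for some `δ > 0`, `C` and `L₀` and all `y > L₀` the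
function `φ` is infinitely differentiable at `y`, `φ y > 0`, `(1 + δ) φ y ≤ y φ' y`, `φ y ≤ y ^ (3 / 2 - δ)`, and
`|φ⁽ᵐ⁾ y| ≤ m! φ y (C / y) ^ m` for all `m ≥ 1`. -/
def Rapid (φ : ℝ → ℝ) : Prop :=
  ∃ δ C L₀ : ℝ, 0 < δ ∧ ∀ y > L₀, ContDiffAt ℝ ((⊤ : ℕ∞) : WithTop ℕ∞) φ y ∧ 0 < φ y ∧
    (1 + δ) * φ y ≤ y * deriv φ y ∧ φ y ≤ y ^ (3 / 2 - δ) ∧
    ∀ m : ℕ, 1 ≤ m → |iteratedDeriv m φ y| ≤ m.factorial * φ y * (C / y) ^ m

/-- `(y, x]` is an admissible interval of the scale `N`: `x / log ^ a N ≤ x - y ≤ x / log x`, and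
`exp (φ (log n)) ≤ N ≤ exp (φ (log x)) log ^ a N` for `y < n ≤ x`. -/
def Interval (φ : ℝ → ℝ) (a N x y : ℕ) : Prop :=
  y < x ∧ (x : ℝ) - x / Real.log x ≤ y ∧ (x : ℝ) ≤ Real.log N ^ a * ((x : ℝ) - y) ∧
  (∀ n : ℕ, n ∈ Ioc y x → Real.exp (φ (Real.log n)) ≤ N) ∧ (N : ℝ) ≤ Real.log N ^ a * Real.exp (φ (Real.log x))

/-- `a, b, c` are positive, pairwise relatively prime and not all odd. -/
def Ok (a b c : ℕ) : Prop :=
  1 ≤ a ∧ 1 ≤ b ∧ 1 ≤ c ∧ Nat.Coprime a b ∧ Nat.Coprime a c ∧ Nat.Coprime b c ∧ 2 ∣ a * b * c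

/-- The number of the prime solutions `(p, q)` of `a p - b q = c` with `q ≤ y`. -/
noncomputable def sol (a b c y : ℕ) : ℕ :=
  Set.ncard {x : ℕ × ℕ | x.1.Prime ∧ x.2.Prime ∧ (a : ℤ) * x.1 - b * x.2 = c ∧ x.2 ≤ y}

/-- The sum of `Λ(p) Λ(q)` over the solutions of `a p - b q = c` in positive integers with `q ≤ y`. -/
noncomputable def weighted (a b c y : ℕ) : ℝ :=
  ∑ q ∈ Icc 1 y, if a ∣ b * q + c then
    ArithmeticFunction.vonMangoldt q * ArithmeticFunction.vonMangoldt ((b * q + c) / a) else 0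

open Classical in
/-- The partial products of the singular series: the factor of a prime `p ≤ z` is `(1 - 1 / p) / (1 - 1 / p) ^ 2` if `p`
divides `a b c`, and `(1 - 2 / p) / (1 - 1 / p) ^ 2` otherwise. -/
noncomputable def sing (a b c z : ℕ) : ℝ :=
  ∏ p ∈ (Icc 1 z).filter Nat.Prime, (1 - (if p ∣ a * b * c then 1 else 2) / (p : ℝ)) / (1 - 1 / (p : ℝ)) ^ 2

/-- The formula of Hardy and Littlewood for the prime solutions of `a p - b q = c` with `q ≤ a y`, where `log N` is the
approximate size of the logarithms of the primes: the singular series converges to some `S > 0`, the number of the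
solutions weighted with the von Mangoldt function is `S y`, with an error of at most `y / log ^ U N`, and the number of
the prime solutions is `S y / log ^ 2 N`, with a relative error of at most `ε`. -/
def Formula (ε : ℝ) (U N y a b c : ℕ) : Prop :=
  ∃ S : ℝ, 0 < S ∧ Tendsto (sing a b c) atTop (nhds S) ∧
    |weighted a b c (a * y) - S * y| ≤ y / Real.log N ^ U ∧
    |(sol a b c (a * y) : ℝ) - S * (y / Real.log N ^ 2)| ≤ ε * (S * (y / Real.log N ^ 2))

/-- The formula holds for `c` and ALL the coefficients `a, b` with `a b ≤ j ≤ log ^ A N` for which `a, b, c` are pairwise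
relatively prime and not all odd, with `y = N / j` (so that `b q` is at most `N`). -/
def AllCoefficients (ε : ℝ) (A U N c : ℕ) : Prop :=
  ∀ j a b : ℕ, (j : ℝ) ≤ Real.log N ^ A → a * b ≤ j → Ok a b c → Formula ε U N (N / j) a b c

/-- `AllCoefficients` holds for the absolute values of ALL the integers `c ≠ 0` at a distance of at most `w` from `u`. As
`a p - b q = -c` means `b q - a p = c`, this describes the prime solutions of `a p - b q = c` for positive and negative `c`. -/
def AllNear (ε : ℝ) (A U N : ℕ) (w : ℝ) (u : ℤ) : Prop :=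
  ∀ c : ℤ, c ≠ 0 → |(c : ℝ) - u| ≤ w → AllCoefficients ε A U N c.natAbs

lemma ok_of (a b c : ℕ) (h : Ok a b c) : Pool.Agent.Results.MP_bf63dc_nt.BoundedlyManyPowers.Ok a b c := by
  obtain ⟨h1, h2, _, h4, h5, h6, h7⟩ := h
  exact ⟨h1, h2, h4, Nat.isCoprime_iff_coprime.2 h5, Nat.isCoprime_iff_coprime.2 h6, by exact_mod_cast h7⟩

lemma sing_of (a b c : ℕ) : Pool.Agent.Results.MP_bf63dc_nt.BoundedlyManyPowers.sing a b c = sing a b c := by
  funext z
  unfold Pool.Agent.Results.MP_bf63dc_nt.BoundedlyManyPowers.sing sing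
  apply prod_congr rfl
  intro p _
  have e : (p : ℤ) ∣ (a : ℤ) * b * (c : ℤ) ↔ p ∣ a * b * c := by
    have : (a : ℤ) * b * (c : ℤ) = ((a * b * c : ℕ) : ℤ) := by push_cast; ring
    rw [this]
    exact Int.natCast_dvd_natCast
  by_cases hc : p ∣ a * b * c
  · rw [if_pos hc, if_pos (e.2 hc)]
  · rw [if_neg hc, if_neg (fun h => hc (e.1 h))]

/-- the first solution -/
lemma first_sol (a b c : ℕ) (h : Ok a b c) : ∃ u v : ℕ, 1 ≤ v ∧ v ≤ a ∧ a * u = b * v + c := by
  obtain ⟨ha, hb, hc, hab, _⟩ := h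
  -- the class of `-c / b` modulo `a`
  obtain ⟨k, hk⟩ : ∃ k : ℕ, b * k ≡ 1 [MOD a] := by
    rcases Nat.lt_or_ge 1 a with h1 | h1
    · obtain ⟨k, _, hk⟩ := Nat.exists_mul_mod_eq_one_of_coprime hab.symm h1
      refine ⟨k, ?_⟩
      unfold Nat.ModEq
      rw [hk, Nat.mod_eq_of_lt h1]
    · have : a = 1 := by omega
      subst this
      exact ⟨0, Nat.modEq_one⟩
  -- a multiple of `a` which is larger than `c`
  obtain ⟨w, hw⟩ : ∃ w, w = k * ((a - 1) * c) := ⟨_, rfl⟩
  have hd : a ∣ b * w + c := by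
    have h1 : b * w ≡ (a - 1) * c [MOD a] := by
      have h2 := Nat.ModEq.mul_right ((a - 1) * c) hk
      rw [one_mul] at h2
      have e : b * w = b * k * ((a - 1) * c) := by rw [hw]; ring
      rw [e]
      exact h2
    have h3 : b * w + c ≡ (a - 1) * c + c [MOD a] := Nat.ModEq.add_right c h1
    have e : (a - 1) * c + c = a * c := by
      obtain ⟨a', rfl⟩ : ∃ a', a = a' + 1 := ⟨a - 1, by omega⟩
      rw [Nat.add_sub_cancel]
      ring
    rw [e] at h3
    exact (Nat.modEq_zero_iff_dvd.1 (h3.trans (Nat.modEq_zero_iff_dvd.2 (dvd_mul_right a c))))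
  -- reduction to the interval
  rcases Nat.eq_zero_or_pos (w % a) with h0 | h0
  · have h1 : a ∣ w := Nat.dvd_of_mod_eq_zero h0
    have h2 : a ∣ c := (Nat.dvd_add_right (Dvd.dvd.mul_left h1 b)).1 hd
    have h3 : a ∣ b * a + c := dvd_add (dvd_mul_left a b) h2
    obtain ⟨u, hu⟩ := h3
    exact ⟨u, a, ha, le_rfl, hu.symm⟩
  · have h1 : w % a < a := Nat.mod_lt _ ha
    have h2 : a ∣ b * (w % a) + c := by
      have h3 : b * (w % a) + c ≡ b * w + c [MOD a] := Nat.ModEq.add_right c (Nat.ModEq.mul_left b (Nat.mod_modEq w a))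
      exact Nat.modEq_zero_iff_dvd.1 (h3.trans (Nat.modEq_zero_iff_dvd.2 hd))
    obtain ⟨u, hu⟩ := h2
    exact ⟨u, w % a, h0, h1.le, hu.symm⟩

lemma sol_of (a b c u v T : ℕ) (h : Ok a b c) (hv1 : 1 ≤ v) (hva : v ≤ a) (huv : a * u = b * v + c) :
    (sol a b c (a * T) : ℝ) = Pool.Agent.Run7.h504.Eq.num a b u v T := by
  obtain ⟨ha, hb, hc, hab, _⟩ := h
  unfold sol Pool.Agent.Run7.h504.Eq.num
  have himg : {x : ℕ × ℕ | x.1.Prime ∧ x.2.Prime ∧ (a : ℤ) * x.1 - b * x.2 = c ∧ x.2 ≤ a * T} =
      (((range T).filter fun t => (v + a * t).Prime ∧ (u + b * t).Prime).image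
        (fun t => (u + b * t, v + a * t)) : Finset (ℕ × ℕ)) := by
    ext x
    rw [Set.mem_ofPred_eq, mem_coe, mem_image]
    constructor
    · rintro ⟨h1, h2, h3, h4⟩
      have h5 : a * x.1 = b * x.2 + c := by
        have : (a : ℤ) * x.1 = b * x.2 + c := by linarith
        exact_mod_cast this
      have h6 : b * x.2 + c ≡ b * v + c [MOD a] := by
        have e1 : b * x.2 + c ≡ 0 [MOD a] := Nat.modEq_zero_iff_dvd.2 ⟨x.1, h5.symm⟩
        have e2 : b * v + c ≡ 0 [MOD a] := Nat.modEq_zero_iff_dvd.2 ⟨u, huv.symm⟩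
        exact e1.trans e2.symm
      have h7 : x.2 ≡ v [MOD a] := Nat.ModEq.cancel_left_of_coprime hab (Nat.ModEq.add_right_cancel' c h6)
      have h8 : v ≤ x.2 := by
        by_contra hcon
        have h9 : a ∣ v - x.2 := (Nat.modEq_iff_dvd' (by omega)).1 h7
        have h10 := Nat.le_of_dvd (by omega) h9
        have h11 := h2.pos
        omega
      obtain ⟨t, ht⟩ := (Nat.modEq_iff_dvd' h8).1 h7.symm
      have h9 : x.2 = v + a * t := by omega
      have h10 : x.1 = u + b * t := by
        have : a * x.1 = a * (u + b * t) := by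
          rw [h5, h9]
          have e : a * (u + b * t) = a * u + a * b * t := by ring
          rw [e, huv]
          ring
        exact Nat.eq_of_mul_eq_mul_left ha this
      refine ⟨t, mem_filter.2 ⟨?_, ?_⟩, ?_⟩
      · rw [mem_range]
        by_contra hcon
        have : a * T ≤ a * t := Nat.mul_le_mul_left _ (by omega)
        omega
      · rw [← h9, ← h10]
        exact ⟨h2, h1⟩
      · ext
        · exact h10.symm
        · exact h9.symm
    · rintro ⟨t, ht, rfl⟩
      rw [mem_filter, mem_range] at ht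
      refine ⟨ht.2.2, ht.2.1, ?_, ?_⟩
      · have h5 : a * (u + b * t) = b * (v + a * t) + c := by
          have e : a * (u + b * t) = a * u + a * b * t := by ring
          rw [e, huv]
          ring
        have h6 : (a : ℤ) * ((u + b * t : ℕ) : ℤ) = b * ((v + a * t : ℕ) : ℤ) + c := by exact_mod_cast h5
        simp only
        linarith
      · have h5 : a * (t + 1) ≤ a * T := Nat.mul_le_mul_left _ ht.1
        have h6 : a * (t + 1) = a * t + a := by ring
        simp only
        omega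
  rw [himg, Set.ncard_coe_finset, card_image_of_injective]
  intro t t' htt
  simp only [Prod.mk.injEq] at htt
  have h1 : a * t = a * t' := by omega
  exact Nat.eq_of_mul_eq_mul_left ha h1

lemma all_of (ε : ℝ) (A U N c : ℕ) (h : Pool.Agent.Run7.h504.Eq.Good ε A U N c) : AllCoefficients ε A U N c := by
  intro j a b hj hab hok
  obtain ⟨u, v, hv1, hva, huv⟩ := first_sol a b c hok
  have hok2 := ok_of a b c hok
  have hcz : (a : ℤ) * u - b * v = (c : ℤ) := by
    have : (a : ℤ) * u = b * v + c := by exact_mod_cast huv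
    linarith
  have hadm := Pool.Agent.Results.MP_bf63dc_nt.BoundedlyManyPowers.adm a b c hok2 u v hcz
  obtain ⟨S, hS0, hS, h1, h2⟩ := h j a b u v hj hok.1 hok.2.1 hab hok.2.2.1 hok.2.2.2.1 hv1 hva huv hadm
  rw [Pool.Agent.Results.MP_bf63dc_nt.BoundedlyManyPowers.sing_eq a b c hok2 u v hcz, sing_of] at hS
  refine ⟨S, hS0, hS, h1, ?_⟩
  rw [sol_of a b c u v (N / j) hok hv1 hva huv]
  exact h2

open Classical in
/-- **(1)** Let `φ` satisfy the conditions `Rapid`, and let `κ ≠ 0`, `A`, `B`, `U`, `W`, `a` and `ε > 0` be fixed. Let `N` be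
large, let `(y, x]` be an admissible interval of the scale `N`, and let `|c₀| ≤ B N`. Then all but at most
`(x - y) / log ^ U N` of the integers `y < n ≤ x` have the following property: for ALL the integers `c ≠ 0` at a distance of at
most `log ^ W N` from `c₀ + κ ⌊exp (φ (log n))⌋`, all `j ≤ log ^ A N` and ALL `a, b ≥ 1` with `a b ≤ j` for which `a, b, c` are
pairwise relatively prime and not all odd, the number of the prime solutions of `a p - b q = |c|` with `q ≤ a (N / j)` is
given by the formula of Hardy and Littlewood.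

**(2)** For every `φ` with the conditions `Rapid` and all large `M`, the interval `(M - ⌊M / log M⌋, M]` is admissible, for
`a = 2` and `N = ⌈exp (φ (log M))⌉`.

**(3)** The functions `φ y = γ y ^ β` with `γ > 0` and `1 < β < 3 / 2` satisfy the conditions `Rapid`: so (1) holds for the
superpolynomial functions `exp (γ (log n) ^ β)`. -/
theorem result :
    (∀ φ : ℝ → ℝ, Rapid φ → ∀ κ : ℤ, κ ≠ 0 → ∀ (A B U W a : ℕ) (ε : ℝ), 0 < ε →
      ∃ N₀ : ℕ, ∀ N : ℕ, N₀ ≤ N → ∀ x y : ℕ, Interval φ a N x y → ∀ c₀ : ℤ, |c₀| ≤ B * N →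
      (((Ioc y x).filter fun n : ℕ =>
        ¬ AllNear ε A U N (Real.log N ^ W) (c₀ + κ * (⌊Real.exp (φ (Real.log n))⌋₊ : ℕ))).card : ℝ) ≤
        ((x : ℝ) - y) / Real.log N ^ U) ∧
    (∀ φ : ℝ → ℝ, Rapid φ → ∃ M₀ : ℕ, ∀ M : ℕ, M₀ ≤ M →
      Interval φ 2 ⌈Real.exp (φ (Real.log M))⌉₊ M (M - ⌊(M : ℝ) / Real.log M⌋₊)) ∧
    (∀ γ β : ℝ, 0 < γ → 1 < β → β < 3 / 2 → Rapid (fun y => γ * y ^ β)) := by
  refine ⟨fun φ hφ κ hκ A B U W a ε hε => ?_, fun φ hφ => ?_,
    fun γ β h1 h2 h3 => Pool.Agent.Run7.h673.SP.rapid_pow γ β h1 h2 h3⟩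
  · have hφ' : Pool.Agent.Run7.h673.SP.Rapid φ := hφ
    obtain ⟨n1, h1⟩ := hφ'.ap κ hκ A B (U + 1) W a ε hε
    obtain ⟨n2, h2⟩ := hφ'.ap (-κ) (neg_ne_zero.2 hκ) A B (U + 1) W a ε hε
    obtain ⟨n3, h3⟩ := Pool.Agent.H373R2.T7.ev_L' 2
    refine ⟨n1 + n2 + n3 + 1, fun N hN x y hI c₀ hc₀ => ?_⟩
    have hr : Pool.Agent.Run7.h673.SP.Rng φ a N x y := ⟨hI.1, hI.2.1, hI.2.2.1, hI.2.2.2.1, hI.2.2.2.2⟩
    have e1 := h1 N (by omega) x y hr c₀ hc₀
    have e2 := h2 N (by omega) x y hr (-c₀) (by rw [abs_neg]; exact hc₀)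
    have hL := h3 N (by omega)
    have hL0 : 0 < Real.log N := by linarith
    have hxy : (0 : ℝ) ≤ (x : ℝ) - y := by
      have : (y : ℝ) < x := by exact_mod_cast hI.1
      linarith
    refine le_trans ?_ ((add_le_add e1 e2).trans ?_)
    · rw [← Nat.cast_add]
      apply Nat.cast_le.2
      refine le_trans (card_le_card fun n hn => ?_) (card_union_le _ _)
      rw [mem_filter] at hn
      rw [mem_union, mem_filter, mem_filter]
      by_contra hcon
      rw [not_or] at hcon
      apply hn.2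
      have hp1 := not_not.1 fun h => hcon.1 ⟨hn.1, h⟩
      have hp2 := not_not.1 fun h => hcon.2 ⟨hn.1, h⟩
      have hmono : ∀ c : ℕ, Pool.Agent.Run7.h504.Eq.Good ε A (U + 1) N c → AllCoefficients ε A U N c := fun c hc =>
        all_of ε A U N c (Pool.Agent.Run7.h673.SP.Good.mono (Nat.le_succ U) (by linarith) hc)
      intro c hc0 hc
      rcases lt_or_gt_of_ne hc0 with hneg | hpos
      · apply hmono
        apply hp2 c.natAbs (Int.natAbs_pos.2 hc0)
        have e3 : ((c.natAbs : ℕ) : ℝ) = -(c : ℝ) := by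
          have : ((c.natAbs : ℕ) : ℤ) = -c := Int.ofNat_natAbs_of_nonpos hneg.le
          have h4 : (((c.natAbs : ℕ) : ℤ) : ℝ) = ((-c : ℤ) : ℝ) := by rw [this]
          rw [Int.cast_natCast] at h4
          rw [h4]
          push_cast
          rfl
        rw [e3]
        have e4 : -(c : ℝ) - (((-c₀ : ℤ) : ℝ) + ((-κ : ℤ) : ℝ) * ((⌊Real.exp (φ (Real.log n))⌋₊ : ℕ) : ℝ)) =
            -((c : ℝ) - ((c₀ + κ * ((⌊Real.exp (φ (Real.log n))⌋₊ : ℕ) : ℤ) : ℤ) : ℝ)) := by
          push_cast
          ring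
        rw [e4, abs_neg]
        exact hc
      · apply hmono
        apply hp1 c.natAbs (Int.natAbs_pos.2 hc0)
        have e3 : ((c.natAbs : ℕ) : ℝ) = (c : ℝ) := by
          have : ((c.natAbs : ℕ) : ℤ) = c := Int.natAbs_of_nonneg hpos.le
          have h4 : (((c.natAbs : ℕ) : ℤ) : ℝ) = (c : ℝ) := by rw [this]
          rw [Int.cast_natCast] at h4
          exact h4
        rw [e3]
        have e4 : (c : ℝ) - ((c₀ : ℝ) + (κ : ℝ) * ((⌊Real.exp (φ (Real.log n))⌋₊ : ℕ) : ℝ)) =
            (c : ℝ) - ((c₀ + κ * ((⌊Real.exp (φ (Real.log n))⌋₊ : ℕ) : ℤ) : ℤ) : ℝ) := by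
          push_cast
          ring
        rw [e4]
        exact hc
    · rw [pow_succ]
      have e : ((x : ℝ) - y) / (Real.log N ^ U * Real.log N) + ((x : ℝ) - y) / (Real.log N ^ U * Real.log N) =
          (2 / Real.log N) * (((x : ℝ) - y) / Real.log N ^ U) := by
        field_simp
        ring
      rw [e]
      calc 2 / Real.log N * (((x : ℝ) - y) / Real.log N ^ U) ≤ 1 * (((x : ℝ) - y) / Real.log N ^ U) := by
            apply mul_le_mul_of_nonneg_right _ (by positivity)
            rw [div_le_one hL0]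
            exact hL
        _ = _ := one_mul _
  · have hφ' : Pool.Agent.Run7.h673.SP.Rapid φ := hφ
    obtain ⟨X₀, h⟩ := hφ'.block' 0
    exact ⟨X₀, fun X hX => ⟨(h X hX).2.lt, (h X hX).2.short, (h X hX).2.long, (h X hX).2.up, (h X hX).2.low⟩⟩

end Pool.Agent.Results.MP_bf63dc_nt.SuperpolynomialRightSides
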